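import Mathlib

set_option autoImplicit false

namespace Pool.Agent.H.MP_36a0ac_al

open MvPolynomial
open scoped NNReal

abbrev P : Type := MvPolynomial ℕ (ZMod 2)
abbrev A : Type := FractionRing P

noncomputable def t (i : ℕ) : A := algebraMap P A (X i)

theorem two (a : A) : a + a = 0 := by
  rw [← two_smul (ZMod 2), show (2 : ZMod 2) = 0 from rfl, zero_smul]

theorem two' : (2 : A) = 0 := by rw [← one_add_one_eq_two]; exact two 1

instance : Countable A := by
  have : Function.Surjective (fun x : P × P => (algebraMap P A x.1 / algebraMap P A x.2)) := by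
    intro y
    obtain ⟨a, b, _, rfl⟩ := IsFractionRing.div_surjective (A := P) y
    exact ⟨(a, b), rfl⟩
  have hc : Countable P := by
    unfold P MvPolynomial
    exact AddMonoidAlgebra.coeff_injective.countable
  exact this.countable

theorem z2 (a : ZMod 2) : a = 0 ∨ a = 1 := by revert a; decide

theorem indA {Q : A → Prop} (h0 : Q 0) (h1 : Q 1) (ht : ∀ i, Q (t i))
    (hadd : ∀ a b, Q a → Q b → Q (a + b)) (hmul : ∀ a b, Q a → Q b → Q (a * b))
    (hinv : ∀ a, Q a → Q a⁻¹) (y : A) : Q y := by
  have hp : ∀ p : P, Q (algebraMap P A p) := by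
    intro p
    induction p using MvPolynomial.induction_on with
    | C a =>
      rcases z2 a with rfl | rfl
      · simpa using h0
      · simpa using h1
    | add p q hp hq => rw [map_add]; exact hadd _ _ hp hq
    | mul_X p i hp => rw [map_mul]; exact hmul _ _ hp (ht i)
  obtain ⟨a, b, _, rfl⟩ := IsFractionRing.div_surjective (A := P) y
  rw [div_eq_mul_inv]
  exact hmul _ _ (hp a) (hinv _ (hp b))

/-- derivations -/
def IsD (D : A →+ A) : Prop := ∀ a b, D (a * b) = a * D b + D a * b

theorem IsD.one {D : A →+ A} (h : IsD D) : D 1 = 0 := by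
  have := h 1 1
  simp only [mul_one, one_mul] at this
  exact left_eq_add.1 this

theorem IsD.inv {D : A →+ A} (h : IsD D) (a : A) : D a⁻¹ = a⁻¹ ^ 2 * D a := by
  by_cases ha : a = 0
  · simp [ha]
  · have := h a a⁻¹
    rw [mul_inv_cancel₀ ha, h.one] at this
    have e : a * D a⁻¹ = D a * a⁻¹ := by
      linear_combination -this - (D a * a⁻¹) * two'
    field_simp at e ⊢
    linear_combination e

theorem IsD.sq {D : A →+ A} (h : IsD D) (a : A) : D (a * a) = 0 := by
  rw [h]; linear_combination (a * D a) * two'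

theorem IsD.zero {D : A →+ A} (h : IsD D) (ht : ∀ i, D (t i) = 0) (y : A) : D y = 0 := by
  induction y using indA with
  | h0 => exact map_zero D
  | h1 => exact h.one
  | ht i => exact ht i
  | hadd a b ha hb => rw [map_add, ha, hb, add_zero]
  | hmul a b ha hb => rw [h, ha, hb]; ring
  | hinv a ha => rw [h.inv, ha, mul_zero]

theorem exists_d (c : ℕ → A) : ∃ D : A →+ A, IsD D ∧ ∀ i, D (t i) = c i := by
  let φ : P →ₐ[ZMod 2] DualNumber A :=
    aeval fun i => TrivSqZeroExt.inl (t i) + TrivSqZeroExt.inr (c i)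
  have hf : ∀ p, (φ p).fst = algebraMap P A p := by
    intro p
    have : (TrivSqZeroExt.fstHom (ZMod 2) A A).comp φ = IsScalarTower.toAlgHom (ZMod 2) P A := by
      ext i; simp [φ, t]
    exact DFunLike.congr_fun this p
  have hu : ∀ y : nonZeroDivisors P, IsUnit (φ.toRingHom y) := by
    intro y
    rw [TrivSqZeroExt.isUnit_iff_isUnit_fst]
    show IsUnit (φ y).fst
    rw [hf]
    exact IsLocalization.map_units A y
  let Φ : A →+* DualNumber A := IsLocalization.lift hu
  have hΦ : ∀ p, Φ (algebraMap P A p) = φ p := fun p => IsLocalization.lift_eq hu p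
  have hfst : ∀ y, (Φ y).fst = y := by
    intro y
    have : (TrivSqZeroExt.fstHom (ZMod 2) A A).toRingHom.comp Φ = RingHom.id A := by
      apply IsLocalization.ringHom_ext (nonZeroDivisors P)
      refine RingHom.ext fun p => ?_
      show (Φ (algebraMap P A p)).fst = algebraMap P A p
      rw [hΦ, hf]
    exact DFunLike.congr_fun this y
  refine ⟨{ toFun := fun y => (Φ y).snd, map_zero' := by simp, map_add' := fun a b => by simp },
    fun a b => ?_, fun i => ?_⟩
  · show (Φ (a * b)).snd = a * (Φ b).snd + (Φ a).snd * b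
    rw [map_mul, DualNumber.snd_mul, hfst, hfst]
  · show (Φ (algebraMap P A (X i))).snd = c i
    rw [hΦ]; simp [φ]

noncomputable def d (c : ℕ → A) : A →+ A := (exists_d c).choose
theorem d_isD (c : ℕ → A) : IsD (d c) := (exists_d c).choose_spec.1
theorem d_t (c : ℕ → A) (i : ℕ) : d c (t i) = c i := (exists_d c).choose_spec.2 i

noncomputable def p (j : ℕ) : A →+ A := d (fun i => if i = j then 1 else 0)
theorem p_isD (j : ℕ) : IsD (p j) := d_isD _
theorem p_mul (j : ℕ) (a b : A) : p j (a * b) = a * p j b + p j a * b := d_isD _ a b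
theorem p_t (j i : ℕ) : p j (t i) = if i = j then 1 else 0 := d_t _ i
theorem p_self (j : ℕ) : p j (t j) = 1 := by rw [p_t, if_pos rfl]
theorem p_ne {i j : ℕ} (h : i ≠ j) : p j (t i) = 0 := by rw [p_t, if_neg h]
theorem p_one (j : ℕ) : p j 1 = 0 := (p_isD j).one

theorem pp_t (i j l : ℕ) : p i (p j (t l)) = 0 := by
  rw [p_t]; split_ifs
  · exact p_one i
  · exact map_zero _

theorem p_comm (i j : ℕ) (y : A) : p i (p j y) = p j (p i y) := by
  have h : IsD ((p i).comp (p j) - (p j).comp (p i)) := fun a b => by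
    simp only [AddMonoidHom.sub_apply, AddMonoidHom.comp_apply, p_mul, map_add]
    ring
  have := h.zero (fun l => by
    simp only [AddMonoidHom.sub_apply, AddMonoidHom.comp_apply, pp_t, sub_self]) y
  exact sub_eq_zero.1 this

theorem p_p (j : ℕ) (y : A) : p j (p j y) = 0 := by
  have h : IsD ((p j).comp (p j)) := fun a b => by
    simp only [AddMonoidHom.comp_apply, p_mul, map_add]
    linear_combination (p j a * p j b) * two'
  exact h.zero (fun l => pp_t j j l) y

theorem fin (y : A) : ∃ N, ∀ j, N ≤ j → p j y = 0 := by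
  induction y using indA with
  | h0 => exact ⟨0, fun j _ => map_zero _⟩
  | h1 => exact ⟨0, fun j _ => p_one j⟩
  | ht i => exact ⟨i + 1, fun j hj => p_ne (by omega)⟩
  | hadd a b ha hb =>
    obtain ⟨N, ha⟩ := ha
    obtain ⟨M, hb⟩ := hb
    exact ⟨max N M, fun j hj => by rw [map_add, ha j (by omega), hb j (by omega), add_zero]⟩
  | hmul a b ha hb =>
    obtain ⟨N, ha⟩ := ha
    obtain ⟨M, hb⟩ := hb
    exact ⟨max N M, fun j hj => by rw [p_mul, ha j (by omega), hb j (by omega)]; ring⟩
  | hinv a ha =>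
    obtain ⟨N, ha⟩ := ha
    exact ⟨N, fun j hj => by rw [(p_isD j).inv, ha j hj, mul_zero]⟩

theorem dsum0 (c : ℕ → A) (y : A) :
    ∃ N, ∀ M, N ≤ M → d c y = ∑ j ∈ Finset.range M, c j * p j y := by
  induction y using indA with
  | h0 => exact ⟨0, fun j _ => by simp⟩
  | h1 => exact ⟨0, fun j _ => by simp [p_one, (d_isD c).one]⟩
  | ht i =>
    refine ⟨i + 1, fun M hM => ?_⟩
    rw [d_t, Finset.sum_eq_single i, p_self, mul_one]
    · intro b _ hb; rw [p_ne hb.symm, mul_zero]
    · intro h; exact absurd (Finset.mem_range.2 (by omega)) h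
  | hadd a b ha hb =>
    obtain ⟨N, ha⟩ := ha
    obtain ⟨N', hb⟩ := hb
    refine ⟨max N N', fun M hM => ?_⟩
    rw [map_add, ha M (by omega), hb M (by omega), ← Finset.sum_add_distrib]
    exact Finset.sum_congr rfl fun j _ => by rw [map_add]; ring
  | hmul a b ha hb =>
    obtain ⟨N, ha⟩ := ha
    obtain ⟨N', hb⟩ := hb
    refine ⟨max N N', fun M hM => ?_⟩
    rw [d_isD, ha M (by omega), hb M (by omega), Finset.mul_sum, Finset.sum_mul,
      ← Finset.sum_add_distrib]
    exact Finset.sum_congr rfl fun j _ => by rw [p_mul]; ring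
  | hinv a ha =>
    obtain ⟨N, ha⟩ := ha
    refine ⟨N, fun M hM => ?_⟩
    rw [(d_isD c).inv, ha M hM, Finset.mul_sum]
    exact Finset.sum_congr rfl fun j _ => by rw [(p_isD j).inv]; ring

theorem dsum (c : ℕ → A) (y : A) (N : ℕ) (h : ∀ j, N ≤ j → p j y = 0) :
    d c y = ∑ j ∈ Finset.range N, c j * p j y := by
  obtain ⟨M, hM⟩ := dsum0 c y
  rw [hM (max M N) (by omega)]
  symm
  apply Finset.sum_subset (Finset.range_mono (by omega))
  intro j _ hj
  rw [h j (by simpa using hj), mul_zero]

open Classical in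
noncomputable def v0 (m : ℕ) : Valuation P ℝ≥0 where
  toFun q := if q = 0 then 0 else 2 ^ degreeOf m q
  map_zero' := by simp
  map_one' := by simp
  map_mul' a b := by
    by_cases ha : a = 0
    · simp [ha]
    by_cases hb : b = 0
    · simp [hb]
    simp [ha, hb, degreeOf_mul_eq ha hb, pow_add]
  map_add_le_max' a b := by
    by_cases hab : a + b = 0
    · simp [hab]
    by_cases ha : a = 0
    · simp [ha]
    by_cases hb : b = 0
    · simp [hb]
    simp only [if_neg ha, if_neg hb, if_neg hab]
    rcases le_max_iff.1 (degreeOf_add_le m a b) with h | h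
    · exact le_max_of_le_left (pow_le_pow_right₀ one_le_two h)
    · exact le_max_of_le_right (pow_le_pow_right₀ one_le_two h)

theorem v0_apply (m : ℕ) {q : P} (h : q ≠ 0) : v0 m q = 2 ^ degreeOf m q := if_neg h

theorem v0_supp (m : ℕ) : nonZeroDivisors P ≤ (v0 m).supp.primeCompl := by
  intro q hq
  show ¬ q ∈ (v0 m).supp
  rw [Valuation.mem_supp_iff, v0_apply m (nonZeroDivisors.ne_zero hq)]
  positivity

noncomputable def v (m : ℕ) : Valuation A ℝ≥0 := (v0 m).extendToLocalization (v0_supp m) A

theorem v_alg (m : ℕ) (q : P) : v m (algebraMap P A q) = v0 m q :=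
  Valuation.extendToLocalization_apply_map_apply _ _ _ q

theorem v_self (m : ℕ) : v m (t m) = 2 := by
  rw [t, v_alg, v0_apply m (X_ne_zero m), degreeOf_X_self, pow_one]

theorem v_ne {m j : ℕ} (h : m ≠ j) : v m (t j) = 1 := by
  rw [t, v_alg, v0_apply m (X_ne_zero j), degreeOf_X_of_ne h, pow_zero]

theorem p_alg (j : ℕ) (q : P) : p j (algebraMap P A q) = algebraMap P A (pderiv j q) := by
  induction q using MvPolynomial.induction_on with
  | C a =>
    rw [pderiv_C, map_zero]
    rcases z2 a with rfl | rfl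
    · simp
    · simp [p_one]
  | add a b ha hb => rw [map_add, map_add, ha, hb, map_add, map_add]
  | mul_X q i hq =>
    rw [map_mul, p_mul, hq, Derivation.leibniz, map_add, smul_eq_mul, smul_eq_mul, map_mul, map_mul,
      show algebraMap P A (X i) = t i from rfl, p_t, pderiv_X, Pi.single_apply]
    split_ifs <;> simp [mul_comm]

theorem deg_pderiv (m j : ℕ) (q : P) : degreeOf m (pderiv j q) ≤ degreeOf m q := by
  conv_lhs => rw [q.as_sum, map_sum]
  refine (degreeOf_sum_le _ _ _).trans (Finset.sup_le fun s hs => ?_)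
  rw [pderiv_monomial]
  by_cases h : coeff s q * (s j : ZMod 2) = 0
  · rw [h]; simp
  · rw [degreeOf_monomial_eq _ _ h]
    exact le_trans (by simp) (monomial_le_degreeOf m hs)

theorem vp0 (m j : ℕ) (q : P) : v m (p j (algebraMap P A q)) ≤ v m (algebraMap P A q) := by
  rw [p_alg, v_alg, v_alg]
  by_cases h : pderiv j q = 0
  · rw [h, map_zero]; exact zero_le
  have hq : q ≠ 0 := fun h0 => h (by rw [h0, map_zero])
  rw [v0_apply m h, v0_apply m hq]
  exact pow_le_pow_right₀ one_le_two (deg_pderiv m j q)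

theorem vp (m j : ℕ) (y : A) : v m (p j y) ≤ v m y := by
  obtain ⟨a, b, hb, rfl⟩ := IsFractionRing.div_surjective (A := P) y
  have hb0 : algebraMap P A b ≠ 0 := IsFractionRing.to_map_ne_zero_of_mem_nonZeroDivisors hb
  set a' := algebraMap P A a
  set b' := algebraMap P A b
  have e : a' / b' = algebraMap P A (a * b) * (b'⁻¹ * b'⁻¹) := by
    rw [map_mul]; field_simp; rfl
  rw [e, p_mul, (p_isD j).sq, mul_zero, zero_add, map_mul, map_mul (v m) (algebraMap P A _)]
  exact mul_le_mul_left (vp0 m j _) _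

theorem vev (y : A) (hy : y ≠ 0) : ∃ N, ∀ m, N ≤ m → v m y = 1 := by
  have h0 : ∀ q : P, q ≠ 0 → ∃ N, ∀ m, N ≤ m → v m (algebraMap P A q) = 1 := by
    intro q hq
    refine ⟨q.vars.sup id + 1, fun m hm => ?_⟩
    have : m ∉ q.vars := fun h => by
      have := Finset.le_sup (f := id) h
      simp only [id] at this
      omega
    rw [mem_vars_iff_degreeOf_ne_zero, not_not] at this
    rw [v_alg, v0_apply m hq, this, pow_zero]
  obtain ⟨a, b, hb, rfl⟩ := IsFractionRing.div_surjective (A := P) y
  obtain ⟨N, hN⟩ := h0 a (fun h => hy (by simp [h]))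
  obtain ⟨M, hM⟩ := h0 b (nonZeroDivisors.ne_zero hb)
  exact ⟨max N M, fun m hm => by rw [map_div₀, hN m (by omega), hM m (by omega), div_one]⟩

theorem vev' (y : A) : ∃ N, ∀ m, N ≤ m → v m y ≤ 1 := by
  by_cases hy : y = 0
  · exact ⟨0, fun m _ => by simp [hy]⟩
  · obtain ⟨N, hN⟩ := vev y hy
    exact ⟨N, fun m hm => (hN m hm).le⟩

end Pool.Agent.H.MP_36a0ac_al
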