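import Pool.Agent.H.MP_36a0ac_al.Tower

set_option autoImplicit false

namespace Pool.Agent.H.MP_36a0ac_al

open scoped NNReal

open Polynomial in
theorem aeval_mem (T : Module.End K A) (S : Submodule K A) (hS : ∀ a ∈ S, T a ∈ S) (q : K[X])
    (a : A) (ha : a ∈ S) : aeval T q a ∈ S := by
  have hp : ∀ n, (T ^ n) a ∈ S := fun n => by
    induction n with
    | zero => exact ha
    | succ n ih => rw [pow_succ', Module.End.mul_apply]; exact hS _ ih
  rw [aeval_eq_sum_range, LinearMap.sum_apply]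
  exact S.sum_mem fun i _ => S.smul_mem _ (hp i)

theorem bdd (j : ℕ) : ∀ φ : A →ₗ[K] K, ∃ N, ∀ m, N ≤ m → ∀ w ∈ B j, v m w ≤ 1 →
    v m (φ w : A) ≤ 1 := by
  induction j with
  | zero =>
    intro φ
    obtain ⟨N, hN⟩ := vev' (φ 1 : A)
    refine ⟨N, fun m hm w hw hv => ?_⟩
    have : w = (⟨w, hw⟩ : K) • (1 : A) := (mul_one w).symm
    rw [this, map_smul]
    show v m (w * φ 1) ≤ 1
    rw [map_mul]; exact mul_le_one' hv (hN m hm)
  | succ j ih =>
    intro φ
    obtain ⟨N1, h1⟩ := ih φ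
    obtain ⟨N2, h2⟩ := ih (φ ∘ₗ LinearMap.mulRight K (t j))
    refine ⟨max (j + 1) (max N1 N2), fun m hm w hw hv => ?_⟩
    have hp : v m (p j w) ≤ 1 := (vp m j w).trans hv
    rw [c_eq j w, map_add]
    refine (v m).map_add_le (h1 m (by omega) _ (c_mem hw) ((v m).map_add_le hv ?_))
      (h2 m (by omega) _ (p_mem' hw) hp)
    rw [map_mul, v_ne (by omega), mul_one]; exact hp

structure Ctx where
  f : A
  n : ℕ
  U : Submodule K A
  f_mem : f ∈ B n
  f_v : ∀ m, n ≤ m → v m f = 1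
  one : (1 : A) ∈ U
  mul : ∀ a ∈ U, ∀ b ∈ U, a * b ∈ U
  der : ∀ a ∈ U, f * D0 a ∈ U
  big : ∀ M, ∃ u ∈ U, u ∉ B M

namespace Ctx
variable (C : Ctx)

theorem f_ne : C.f ≠ 0 := fun h => by
  have := C.f_v C.n le_rfl
  rw [h, map_zero] at this
  exact zero_ne_one this

theorem inv {a : A} (ha : a ∈ C.U) : a⁻¹ ∈ C.U := by
  by_cases h0 : a = 0
  · rw [h0, inv_zero]; exact C.U.zero_mem
  · have := C.U.smul_mem (⟨(a * a)⁻¹, (B 0).inv_mem (sq_mem a 0)⟩ : K) ha
    rw [smul_def] at this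
    have e : (a * a)⁻¹ * a = a⁻¹ := by field_simp
    exact e ▸ this

theorem fD_v {m : ℕ} (hm : C.n ≤ m) {y : A} (hy : y ∈ B m) : v m (C.f * D0 y) ≤ v m y := by
  rw [map_mul, C.f_v m hm, one_mul]; exact D0_v hy

open Polynomial in
theorem graded {m : ℕ} (hm : C.n ≤ m) {x y : A} (hx : x ∈ B m) (hy : y ∈ B m)
    (hu : x + y * t m ∈ C.U) : y * t m ∈ C.U := by
  have hf : C.f ∈ B m := B_mono hm C.f_mem
  obtain ⟨q, hq, hc, h0⟩ := annih m C.f hf (C.f_v m hm).le
  let T : Module.End K A := Df C.f + LinearMap.mulLeft K (C.f * h m)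
  have hTa : ∀ y, T y = C.f * D0 y + C.f * h m * y := fun _ => rfl
  have hT : ∀ y ∈ B m, T y ∈ B m ∧ v m (T y) = 4 * v m y := fun y hy => by
    rw [hTa]
    refine ⟨add_mem (mul_mem hf (D0_mem hy)) (mul_mem (mul_mem hf (h_mem m)) hy), ?_⟩
    have e : v m (C.f * h m * y) = 4 * v m y := by
      rw [map_mul, map_mul, C.f_v m hm, h_v, one_mul]
    by_cases hy0 : y = 0
    · simp [hy0]
    · rw [← e]
      apply (v m).map_add_eq_of_lt_right
      rw [e]
      have hv : 0 < v m y := (v m).pos_iff.2 hy0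
      calc _ ≤ v m y := C.fD_v hm hy
        _ = 1 * v m y := (one_mul _).symm
        _ < _ := mul_lt_mul_of_pos_right (by norm_num) hv
  have hpow : ∀ n y, (Df C.f ^ n) (y * t m) = (T ^ n) y * t m := by
    intro n
    induction n with
    | zero => intro y; rfl
    | succ n ih =>
      intro y
      rw [pow_succ, pow_succ, Module.End.mul_apply, Module.End.mul_apply, ← ih, Df_apply, hTa,
        D0_mul, D0_t]
      congr 1; ring
  have hae : ∀ y, aeval (Df C.f) q (y * t m) = aeval T q y * t m := by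
    intro y
    rw [aeval_eq_sum_range, aeval_eq_sum_range, LinearMap.sum_apply, LinearMap.sum_apply,
      Finset.sum_mul]
    refine Finset.sum_congr rfl fun i _ => ?_
    rw [LinearMap.smul_apply, LinearMap.smul_apply, hpow, smul_def, smul_def, mul_assoc]
  let Y : Submodule K A :=
    { carrier := {y | y ∈ B m ∧ ∃ x ∈ B m, x + y * t m ∈ C.U}
      zero_mem' := ⟨(B m).zero_mem, 0, (B m).zero_mem, by simp⟩
      add_mem' := by
        rintro a b ⟨ha, x, hx, h1⟩ ⟨hb, x', hx', h2⟩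
        refine ⟨add_mem ha hb, x + x', add_mem hx hx', ?_⟩
        have := C.U.add_mem h1 h2
        rwa [show x + a * t m + (x' + b * t m) = x + x' + (a + b) * t m by ring] at this
      smul_mem' := by
        rintro c a ⟨ha, x, hx, h1⟩
        refine ⟨(BM m).smul_mem c ha, c • x, (BM m).smul_mem c hx, ?_⟩
        have := C.U.smul_mem c h1
        rwa [smul_add, ← smul_mul_assoc] at this }
  have hY : Y ≤ BM m := fun y hy => hy.1
  have : FiniteDimensional K Y := Submodule.finiteDimensional_of_le hY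
  have key : ∀ y ∈ Y, aeval T q y * t m ∈ C.U := by
    rintro y ⟨hy, x, hx, h1⟩
    have := aeval_mem (Df C.f) C.U C.der q _ h1
    rwa [map_add, h0 x hx, zero_add, hae] at this
  have hst : ∀ y ∈ Y, aeval T q y ∈ Y := fun y hy =>
    ⟨aeval_mem T (BM m) (fun a ha => (hT a ha).1) q y hy.1, 0, (B m).zero_mem, by
      rw [zero_add]; exact key y hy⟩
  have hinj : Function.Injective ((aeval T q).restrict hst) := by
    rw [injective_iff_map_eq_zero]
    intro a ha
    exact Subtype.ext (inj_big m T hT q hq hc a a.2.1 (congrArg Subtype.val ha))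
  obtain ⟨z, hz⟩ := LinearMap.injective_iff_surjective.1 hinj ⟨y, hy, x, hx, hu⟩
  have hz' : aeval T q (z : A) = y := congrArg Subtype.val hz
  rw [← hz']
  exact key _ z.2

theorem proj {m : ℕ} (hm : C.n ≤ m) {u : A} (hu : u ∈ C.U) (hB : u ∈ B (m + 1)) :
    p m u * t m ∈ C.U := by
  refine C.graded hm (c_mem hB) (p_mem' hB) ?_
  rw [← c_eq]; exact hu

def Pure (m : ℕ) : Prop := ∃ y, y ≠ 0 ∧ y ∈ B m ∧ y * t m ∈ C.U

theorem pure_of {m : ℕ} (hm : C.n ≤ m) {u : A} (hu : u ∈ C.U) (hB : u ∈ B (m + 1))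
    (hn : p m u ≠ 0) : C.Pure m := ⟨_, hn, p_mem' hB, C.proj hm hu hB⟩

theorem dlog {m : ℕ} (hm : C.n ≤ m) (hP : C.Pure m) :
    ∃ w ∈ B m, v m w ≤ 1 ∧ C.f * h m + w ∈ C.U := by
  obtain ⟨y, h0, hy, hu⟩ := hP
  refine ⟨C.f * D0 y * y⁻¹, mul_mem (mul_mem (B_mono hm C.f_mem) (D0_mem hy)) (inv_mem hy), ?_, ?_⟩
  · rw [map_mul, map_inv₀, mul_inv_le_iff₀ ((v m).pos_iff.2 h0), one_mul]
    exact C.fD_v hm hy
  · have := C.mul _ (C.der _ hu) _ (C.inv hu)
    have ht := t_ne m
    rw [D0_mul, D0_t] at this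
    have e : C.f * (y * (h m * t m) + D0 y * t m) * (y * t m)⁻¹
        = C.f * h m + C.f * D0 y * y⁻¹ := by field_simp
    exact e ▸ this

theorem down {m : ℕ} (hm : C.n ≤ m) (hP : C.Pure (m + 1)) : C.Pure m := by
  obtain ⟨w, hw, hv, hu⟩ := C.dlog (by omega) hP
  have hf : C.f ∈ B m := B_mono hm C.f_mem
  refine C.pure_of hm hu (add_mem (mul_mem (B_mono (by omega) hf) (h_mem _)) hw) fun h0 => ?_
  rw [map_add, h, g, p_mul, p_mul, hf m le_rfl, (p_isD m).sq, map_add, p_self,
    s_mem m m le_rfl] at h0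
  have e : p m w = C.f * (t (m + 1) * t (m + 1)) := by
    linear_combination h0 - (C.f * (t (m + 1) * t (m + 1))) * two'
  have := (vp (m + 1) m w).trans hv
  rw [e, map_mul, map_mul, C.f_v _ (by omega), v_self] at this
  norm_num at this

theorem allpure {m : ℕ} (hm : C.n ≤ m) : C.Pure m := by
  obtain ⟨u, hu, hn⟩ := C.big m
  obtain ⟨M, hM⟩ := exB u
  have h1 : ∀ k, u ∈ B (m + k) → ∃ j, C.Pure (m + j) := by
    intro k
    induction k with
    | zero => intro h; exact absurd h hn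
    | succ k ih =>
      intro h
      by_cases h0 : p (m + k) u = 0
      · apply ih
        have := c_mem (m := m + k) h
        rwa [h0, zero_mul, add_zero] at this
      · exact ⟨k, C.pure_of (by omega) hu h h0⟩
  obtain ⟨j, hj⟩ := h1 M (B_mono (by omega) hM)
  induction j with
  | zero => exact hj
  | succ j ih => exact ih (C.down (by omega) hj)

theorem approx {m : ℕ} (hm : C.n ≤ m) (hs : s m ∈ B C.n) :
    ∃ w ∈ B C.n, v (m + 1) w ≤ 1 ∧ C.f * (t (m + 1) * t (m + 1)) * s m + w ∈ C.U := by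
  set a := C.f * (t (m + 1) * t (m + 1)) * s m with ha
  have haB : a ∈ B C.n := mul_mem (mul_mem C.f_mem (sq_mem _ _)) hs
  have step : ∀ j, C.n ≤ j → j ≤ m → (∃ w ∈ B (j + 1), ∃ c ∈ B j, v (m + 1) w ≤ 1 ∧
      a + c * t j + w ∈ C.U) → ∃ w ∈ B j, v (m + 1) w ≤ 1 ∧ a + w ∈ C.U := by
    rintro j hj hjm ⟨w, hw, c, hc, hv, hu⟩
    have haj : a ∈ B j := B_mono hj haB
    have h1 := C.graded hj (add_mem haj (c_mem hw)) (add_mem hc (p_mem' hw)) (by
      have e : a + (w + p j w * t j) + (c + p j w) * t j = a + c * t j + w := by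
        linear_combination (p j w * t j) * two'
      rw [e]; exact hu)
    refine ⟨w + p j w * t j, c_mem hw, (v _).map_add_le hv ?_, ?_⟩
    · rw [map_mul, v_ne (by omega), mul_one]; exact (vp _ _ _).trans hv
    · have := C.U.add_mem hu h1
      have e : a + c * t j + w + (c + p j w) * t j = a + (w + p j w * t j) := by
        linear_combination (c * t j) * two'
      exact e ▸ this
  have all : ∀ k j, j + k = m → C.n ≤ j → ∃ w ∈ B j, v (m + 1) w ≤ 1 ∧ a + w ∈ C.U := by
    intro k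
    induction k with
    | zero =>
      intro j hj hn
      obtain rfl : j = m := by omega
      obtain ⟨w, hw, hv, hu⟩ := C.dlog (by omega) (C.allpure (m := j + 1) (by omega))
      refine step j hn le_rfl ⟨w, hw, C.f * (t (j + 1) * t (j + 1)),
        mul_mem (B_mono hn C.f_mem) (sq_mem _ _), hv, ?_⟩
      have e : a + C.f * (t (j + 1) * t (j + 1)) * t j = C.f * h (j + 1) := by
        rw [ha, h, g]; ring
      rw [e]; exact hu
    | succ k ih =>
      intro j hj hn
      obtain ⟨w, hw, hv, hu⟩ := ih (j + 1) (by omega) (by omega)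
      exact step j hn (by omega) ⟨w, hw, 0, zero_mem _, hv, by simpa using hu⟩
  exact all (m - C.n) C.n (by omega) le_rfl

theorem base {b : A} (hb : b ∈ B C.n) : b ∈ C.U := by
  by_contra hn
  obtain ⟨φ, h1, h2⟩ := Submodule.exists_dual_map_eq_bot_of_notMem hn inferInstance
  have hφ : ∀ u ∈ C.U, φ u = 0 := fun u hu => by
    have : φ u ∈ C.U.map φ := Submodule.mem_map_of_mem hu
    rwa [h2, Submodule.mem_bot] at this
  obtain ⟨N1, hN1⟩ := bdd C.n φ
  obtain ⟨N2, hN2⟩ := vev (φ b : A) (fun h => h1 (Subtype.ext h))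
  obtain ⟨m, hm, hs⟩ := s_all (C.f⁻¹ * b) (max C.n (max N1 N2))
  obtain ⟨w, hw, hv, hu⟩ := C.approx (m := m) (by omega)
    (by rw [hs]; exact mul_mem (inv_mem C.f_mem) hb)
  have hf := C.f_ne
  have e : C.f * (t (m + 1) * t (m + 1)) * s m
      = (⟨t (m + 1) * t (m + 1), sq_mem _ 0⟩ : K) • b := by
    rw [hs, smul_def]; field_simp
  have h3 := hφ _ hu
  rw [e, map_add, map_smul] at h3
  have h4 : t (m + 1) * t (m + 1) * (φ b : A) + (φ w : A) = 0 := congrArg Subtype.val h3
  have h5 : (φ w : A) = t (m + 1) * t (m + 1) * (φ b : A) := by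
    linear_combination h4 - (t (m + 1) * t (m + 1) * (φ b : A)) * two'
  have h6 := hN1 (m + 1) (by omega) w hw hv
  rw [h5, map_mul, map_mul, v_self, hN2 _ (by omega)] at h6
  norm_num at h6

theorem top (y : A) : y ∈ C.U := by
  have all : ∀ k, ∀ y ∈ B (C.n + k), y ∈ C.U := by
    intro k
    induction k with
    | zero => exact fun y hy => C.base hy
    | succ k ih =>
      intro y hy
      obtain ⟨z, h0, hz, hu⟩ := C.allpure (m := C.n + k) (by omega)
      have ht : t (C.n + k) ∈ C.U := by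
        have := C.mul _ (C.inv (ih z hz)) _ hu
        rwa [← mul_assoc, inv_mul_cancel₀ h0, one_mul] at this
      rw [c_eq (C.n + k) y]
      exact C.U.add_mem (ih _ (c_mem hy)) (C.mul _ (ih _ (p_mem' hy)) _ ht)
  obtain ⟨M, hM⟩ := exB y
  exact all M y (B_mono (by omega) hM)

end Ctx

end Pool.Agent.H.MP_36a0ac_al
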