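import Pool.Agent.H.MP_36a0ac_al.Ctx

set_option autoImplicit false

namespace Pool.Agent.H.MP_36a0ac_al

open scoped NNReal


theorem kneser (f : A) (hf : f ≠ 0) (W : Submodule K A) [FiniteDimensional K W] (h1 : (1 : A) ∈ W)
    (hD : ∀ a ∈ W, ∀ b ∈ W, f * D0 (a * b) ∈ W) (w : A) (hw : w ∈ W) :
    ∀ z ∈ W * W, w * z ∈ W * W := by
  have hfg : (W * W).FG := (Module.Finite.iff_fg.1 inferInstance).mul
    (Module.Finite.iff_fg.1 inferInstance)
  have : FiniteDimensional K ↥(W * W) := Module.Finite.iff_fg.2 hfg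
  have hle : W ≤ W * W := fun a ha => by
    have := Submodule.mul_mem_mul ha h1
    rwa [mul_one] at this
  have hDD : ∀ z ∈ W * W, Df f z ∈ W := fun z hz =>
    Submodule.mul_induction_on hz (fun a ha b hb => hD a ha b hb)
      (fun a b ha hb => by rw [map_add]; exact W.add_mem ha hb)
  have hdim : Module.finrank K ↥(W * W) ≤ Module.finrank K W + 1 := by
    have r := LinearMap.finrank_range_add_finrank_ker ((Df f).domRestrict (W * W))
    have r1 : Module.finrank K (LinearMap.range ((Df f).domRestrict (W * W)))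
        ≤ Module.finrank K W := by
      apply Submodule.finrank_mono
      rintro _ ⟨z, rfl⟩
      exact hDD z z.2
    have r2 : Module.finrank K (LinearMap.ker ((Df f).domRestrict (W * W))) ≤ 1 := by
      refine finrank_le_one ⟨⟨1, hle h1⟩, ?_⟩ ?_
      · show f * D0 1 = 0
        rw [D0_isD.one, mul_zero]
      · intro z
        have hz : f * D0 (z.1 : A) = 0 := z.2
        exact ⟨⟨z.1, kerD ((mul_eq_zero.1 hz).resolve_left hf)⟩,
          Subtype.ext (Subtype.ext (mul_one _))⟩
    omega
  by_cases hc : W.map (LinearMap.mulLeft K w) ≤ W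
  · intro z hz
    refine Submodule.mul_induction_on hz (fun a ha b hb => ?_) (fun a b ha hb => ?_)
    · rw [← mul_assoc]; exact Submodule.mul_mem_mul (hc ⟨a, ha, rfl⟩) hb
    · rw [mul_add]; exact Submodule.add_mem _ ha hb
  · have hS : W ⊔ W.map (LinearMap.mulLeft K w) ≤ W * W := sup_le hle (by
      rintro _ ⟨a, ha, rfl⟩
      exact Submodule.mul_mem_mul hw ha)
    have : FiniteDimensional K ↥(W ⊔ W.map (LinearMap.mulLeft K w)) :=
      Submodule.finiteDimensional_of_le hS
    have hlt : W < W ⊔ W.map (LinearMap.mulLeft K w) :=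
      lt_of_le_of_ne le_sup_left fun h => hc (le_sup_right.trans h.ge)
    have h2 := Submodule.finrank_lt_finrank_of_lt hlt
    have h3 := Submodule.eq_of_le_of_finrank_le hS (by omega)
    intro z hz
    rw [← h3, Submodule.mem_sup] at hz
    obtain ⟨a, ha, _, ⟨b, hb, rfl⟩, rfl⟩ := hz
    rw [mul_add]
    refine Submodule.add_mem _ (Submodule.mul_mem_mul hw ha) (hle ?_)
    have := W.smul_mem (⟨w * w, sq_mem w 0⟩ : K) hb
    rw [smul_def] at this
    show w * (w * b) ∈ W
    rwa [← mul_assoc]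

theorem main (V : Submodule K A) (hV : ∀ a ∈ V, ∀ b ∈ V, D0 (a * b) ∈ V)
    (big : ∀ M, ∃ u ∈ V, u ∉ B M) (y : A) : D0 y ∈ V := by
  obtain ⟨f, hfV, hf⟩ := big 0
  have hf0 : f ≠ 0 := fun h => hf (h ▸ (B 0).zero_mem)
  obtain ⟨N1, hN1⟩ := exB f
  obtain ⟨N2, hN2⟩ := vev f hf0
  let W : Submodule K A := V.comap (LinearMap.mulLeft K f)
  have hW : ∀ a, a ∈ W ↔ f * a ∈ V := fun _ => Iff.rfl
  have hff : ∀ a, D0 (f * f * a) = f * f * D0 a := fun a => by
    rw [D0_mul, D0_isD.sq]; ring
  have h1 : (1 : A) ∈ W := by rw [hW, mul_one]; exact hfV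
  have hD : ∀ a ∈ W, ∀ b ∈ W, f * D0 (a * b) ∈ W := fun a ha b hb => by
    have := hV _ ha _ hb
    rw [hW, ← mul_assoc, ← hff]
    rwa [show LinearMap.mulLeft K f a * LinearMap.mulLeft K f b = f * f * (a * b) by
      simp only [LinearMap.mulLeft_apply]; ring] at this
  have hle : W ≤ W * W := fun a ha => by
    have := Submodule.mul_mem_mul ha h1
    rwa [mul_one] at this
  have hDD : ∀ z ∈ W * W, f * D0 z ∈ W := fun z hz =>
    Submodule.mul_induction_on hz (fun a ha b hb => hD a ha b hb)
      (fun a b ha hb => by rw [map_add, mul_add]; exact W.add_mem ha hb)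
  have hw : ∀ w ∈ W, ∀ z ∈ W * W, w * z ∈ W * W := by
    intro w hw z hz
    refine Submodule.mul_induction_on hz (fun a ha b hb => ?_) (fun a b ha hb => ?_)
    · obtain ⟨M1, h1'⟩ := exB w
      obtain ⟨M2, h2'⟩ := exB a
      obtain ⟨M3, h3'⟩ := exB b
      set M := max N1 (max M1 (max M2 M3))
      have : FiniteDimensional K ↥(W ⊓ BM M) := Submodule.finiteDimensional_of_le inf_le_right
      have := kneser f hf0 (W ⊓ BM M) ⟨h1, (B M).one_mem⟩
        (fun a ha b hb => ⟨hD a ha.1 b hb.1, (B M).mul_mem (B_mono (by omega) hN1)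
          (D0_mem ((B M).mul_mem ha.2 hb.2))⟩) w ⟨hw, B_mono (by omega) h1'⟩ (a * b)
        (Submodule.mul_mem_mul ⟨ha, B_mono (by omega) h2'⟩ ⟨hb, B_mono (by omega) h3'⟩)
      exact (show (W ⊓ BM M) * (W ⊓ BM M) ≤ W * W from mul_le_mul' inf_le_left inf_le_left) this
    · rw [mul_add]; exact Submodule.add_mem _ ha hb
  let C : Ctx :=
    { f := f, n := max N1 N2, U := W * W
      f_mem := B_mono (by omega) hN1
      f_v := fun m hm => hN2 m (by omega)
      one := hle h1
      mul := fun z hz z' hz' => by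
        refine Submodule.mul_induction_on hz (fun a ha b hb => ?_) (fun a b ha hb => ?_)
        · rw [mul_assoc]; exact hw a ha _ (hw b hb _ hz')
        · rw [add_mul]; exact Submodule.add_mem _ ha hb
      der := fun a ha => hle (hDD a ha)
      big := fun M => by
        obtain ⟨u, hu, hn⟩ := big (max M N1)
        refine ⟨f⁻¹ * u, hle ?_, fun h => hn ?_⟩
        · rw [hW, ← mul_assoc, mul_inv_cancel₀ hf0, one_mul]; exact hu
        · have := (B (max M N1)).mul_mem (B_mono (by omega) hN1) (B_mono (by omega) h)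
          rwa [← mul_assoc, mul_inv_cancel₀ hf0, one_mul] at this }
  have := hDD _ (C.top ((f * f)⁻¹ * y))
  rw [hW, ← mul_assoc, ← hff, ← mul_assoc, mul_inv_cancel₀ (mul_ne_zero hf0 hf0), one_mul] at this
  exact this

/-- the Lie algebra: the image of the derivation with bracket the derivative of the product -/
def L : Type := LinearMap.range (Df 1)

noncomputable instance : AddCommGroup L := inferInstanceAs (AddCommGroup (LinearMap.range (Df 1)))
noncomputable instance : Module K L := inferInstanceAs (Module K (LinearMap.range (Df 1)))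

noncomputable def inc : L →ₗ[K] A := (LinearMap.range (Df 1)).subtype

theorem inc_inj : Function.Injective inc := (LinearMap.range (Df 1)).injective_subtype

noncomputable def mk (y : A) : L := (⟨D0 y, y, one_mul _⟩ : LinearMap.range (Df 1))

theorem inc_mk (y : A) : inc (mk y) = D0 y := rfl

theorem mk_surj (x : L) : ∃ y, mk y = x := by
  obtain ⟨y, hy⟩ := (show LinearMap.range (Df 1) from x).2
  exact ⟨y, inc_inj (by rw [inc_mk, ← one_mul (D0 y)]; exact hy)⟩

noncomputable instance : LieRing L where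
  bracket a b := mk (inc a * inc b)
  add_lie a b c := inc_inj (by simp only [map_add, inc_mk, add_mul])
  lie_add a b c := inc_inj (by simp only [map_add, inc_mk, mul_add])
  lie_self a := inc_inj (by rw [inc_mk, D0_isD.sq, map_zero])
  leibniz_lie a b c := inc_inj (by
    simp only [map_add, inc_mk, D0_mul]
    linear_combination -(inc a * D0 (inc b) * D0 (inc c) * 0 + D0 (inc a) * D0 (inc b) * inc c
      + D0 (inc a) * inc b * D0 (inc c) * 0 + D0 (D0 (inc a)) * inc b * inc c
      + D0 (inc a) * D0 (inc c) * inc b * 1 + inc a * D0 (inc b) * D0 (inc c) * 0) * two')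

theorem inc_lie (a b : L) : inc ⁅a, b⁆ = D0 (inc a * inc b) := rfl

noncomputable instance : LieAlgebra K L where
  lie_smul c a b := inc_inj (by
    rw [map_smul, inc_lie, inc_lie, map_smul, smul_def, smul_def, mul_left_comm, D0_mul,
      D0_K c.2]; ring)

theorem proper_fd (H : LieSubalgebra K L) (hH : H ≠ ⊤) : FiniteDimensional K H := by
  by_cases hb : ∀ M, ∃ u ∈ H.toSubmodule.map inc, u ∉ B M
  · exfalso
    apply hH
    rw [eq_top_iff]
    intro x _
    obtain ⟨y, rfl⟩ := mk_surj x
    obtain ⟨z, hz, e⟩ := main (H.toSubmodule.map inc) (by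
      rintro _ ⟨a, ha, rfl⟩ _ ⟨b, hb, rfl⟩
      exact ⟨⁅a, b⁆, H.lie_mem ha hb, rfl⟩) hb y
    have : z = mk y := inc_inj e
    exact this ▸ hz
  · push Not at hb
    obtain ⟨M, hM⟩ := hb
    have : FiniteDimensional K (H.toSubmodule.map inc) :=
      Submodule.finiteDimensional_of_le (S₂ := BM M) hM
    exact (Submodule.equivMapOfInjective inc inc_inj H.toSubmodule).symm.finiteDimensional

theorem not_fg : ¬ ∃ s : Set L, s.Finite ∧ LieSubalgebra.lieSpan K L s = ⊤ := by
  rintro ⟨S, hS, htop⟩
  have hM : ∃ M, ∀ x ∈ S, inc x ∈ B M := by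
    choose N hN using fun x : L => exB (inc x)
    obtain ⟨M, hM⟩ := (hS.image N).bddAbove
    exact ⟨M, fun x hx => B_mono (hM ⟨x, hx, rfl⟩) (hN x)⟩
  obtain ⟨M, hM⟩ := hM
  let H : LieSubalgebra K L :=
    { (BM M).comap inc with
      lie_mem' := fun {a b} ha hb => D0_mem ((B M).mul_mem ha hb) }
  have hle : LieSubalgebra.lieSpan K L S ≤ H := LieSubalgebra.lieSpan_le.2 hM
  have : mk (t M) ∈ H := hle (htop ▸ trivial)
  have h1 : D0 (t M) ∈ B M := this
  have h2 := h1 M le_rfl
  rw [D0_t, ← zero_add (h M * t M), p_comp (B M).zero_mem (h_mem M)] at h2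
  have h3 := h_v M
  rw [h2, map_zero] at h3
  norm_num at h3

theorem not_fd : ¬ FiniteDimensional K L := by
  intro hfd
  obtain ⟨S, hS⟩ := Module.Finite.fg_top (R := K) (M := L)
  refine not_fg ⟨S, S.finite_toSet, ?_⟩
  rw [eq_top_iff]
  intro x _
  exact LieSubalgebra.submodule_span_le_lieSpan (hS ▸ (trivial : x ∈ (⊤ : Submodule K L)))

end Pool.Agent.H.MP_36a0ac_al
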