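import Pool.Agent.H.MP_36a0ac_al.Base

set_option autoImplicit false

namespace Pool.Agent.H.MP_36a0ac_al

open scoped NNReal

def B (m : ℕ) : Subfield A where
  carrier := {y | ∀ j, m ≤ j → p j y = 0}
  zero_mem' := fun j _ => map_zero _
  one_mem' := fun j _ => p_one j
  add_mem' := fun {a b} ha hb j hj => by rw [map_add, ha j hj, hb j hj, add_zero]
  mul_mem' := fun {a b} ha hb j hj => by rw [p_mul, ha j hj, hb j hj]; ring
  neg_mem' := fun {a} ha j hj => by rw [map_neg, ha j hj, neg_zero]
  inv_mem' := fun a ha j hj => by rw [(p_isD j).inv, ha j hj, mul_zero]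

theorem memB {m : ℕ} {y : A} : y ∈ B m ↔ ∀ j, m ≤ j → p j y = 0 := Iff.rfl

theorem B_mono {m n : ℕ} (h : m ≤ n) {y : A} (hy : y ∈ B m) : y ∈ B n :=
  fun j hj => hy j (by omega)

theorem exB (y : A) : ∃ N, y ∈ B N := fin y

theorem t_mem {j m : ℕ} (h : j < m) : t j ∈ B m := fun _ hi => p_ne (by omega)

theorem sq_mem (a : A) (m : ℕ) : a * a ∈ B m := fun j _ => (p_isD j).sq a

theorem p_mem {m : ℕ} {y : A} (hy : y ∈ B m) (i : ℕ) : p i y ∈ B m :=
  fun j hj => by rw [p_comm, hy j hj, map_zero]

theorem p_mem' {m : ℕ} {y : A} (hy : y ∈ B (m + 1)) : p m y ∈ B m := fun j hj => by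
  rcases Nat.eq_or_lt_of_le hj with rfl | h
  · exact p_p _ y
  · exact p_mem hy m j h

theorem c_mem {m : ℕ} {y : A} (hy : y ∈ B (m + 1)) : y + p m y * t m ∈ B m := fun j hj => by
  rcases Nat.eq_or_lt_of_le hj with rfl | h
  · rw [map_add, p_mul, p_self, p_p]; linear_combination (p m y) * two'
  · exact (B (m + 1)).add_mem hy ((B (m + 1)).mul_mem (p_mem hy m) (t_mem (by omega))) j h

theorem c_eq (m : ℕ) (y : A) : y = (y + p m y * t m) + p m y * t m := by
  linear_combination -(p m y * t m) * two'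

theorem p_comp {m : ℕ} {x y : A} (hx : x ∈ B m) (hy : y ∈ B m) : p m (x + y * t m) = y := by
  rw [map_add, p_mul, p_self, hx m le_rfl, hy m le_rfl]; ring

theorem t_ne (m : ℕ) : t m ≠ 0 := fun h => by
  have := p_self m
  rw [h, map_zero] at this
  exact zero_ne_one this

theorem exe : ∃ e : ℕ → A, ∀ y N, ∃ m, N ≤ m ∧ e m = y := by
  obtain ⟨g, hg⟩ := exists_surjective_nat A
  refine ⟨fun m => g (Nat.unpair m).1, fun y N => ?_⟩
  obtain ⟨i, rfl⟩ := hg y
  exact ⟨Nat.pair i N, Nat.right_le_pair i N, by simp⟩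

noncomputable def e : ℕ → A := exe.choose

open Classical in
noncomputable def s (m : ℕ) : A := if e m ∈ B m ∧ ∀ j, m ≤ j → v j (e m) ≤ 1 then e m else 0

theorem s_mem (m : ℕ) : s m ∈ B m := by
  unfold s; split_ifs with h
  · exact h.1
  · exact zero_mem _

theorem s_v {m j : ℕ} (hj : m ≤ j) : v j (s m) ≤ 1 := by
  unfold s; split_ifs with h
  · exact h.2 j hj
  · simp

theorem s_all (y : A) (N : ℕ) : ∃ m, N ≤ m ∧ s m = y := by
  obtain ⟨N1, h1⟩ := exB y
  obtain ⟨N2, h2⟩ := vev' y
  obtain ⟨m, hm, he⟩ := exe.choose_spec y (max N (max N1 N2))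
  refine ⟨m, by omega, ?_⟩
  have he' : e m = y := he
  unfold s
  rw [he', if_pos ⟨B_mono (by omega) h1, fun j hj => h2 j (by omega)⟩]

noncomputable def g : ℕ → A
  | 0 => 1
  | m + 1 => t m + s m

theorem g_mem (m : ℕ) : g m ∈ B m := by
  cases m with
  | zero => exact one_mem _
  | succ m => exact add_mem (t_mem (by omega)) (B_mono (by omega) (s_mem m))

theorem g_v {m j : ℕ} (hj : m ≤ j) : v j (g m) ≤ 1 := by
  cases m with
  | zero => simp [g]
  | succ m => exact (v j).map_add_le (v_ne (by omega)).le (s_v (by omega))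

theorem g_v1 (m : ℕ) : v m (g m) = 1 := by
  refine le_antisymm (g_v le_rfl) ?_
  cases m with
  | zero => simp [g]
  | succ m =>
    have := vp (m + 1) m (g (m + 1))
    rwa [g, map_add, p_self, s_mem m m le_rfl, add_zero, map_one] at this

noncomputable def h (m : ℕ) : A := t m * t m * g m

theorem h_mem (m : ℕ) : h m ∈ B m := mul_mem (sq_mem _ _) (g_mem m)

theorem h_v (m : ℕ) : v m (h m) = 4 := by
  rw [h, map_mul, map_mul, v_self, g_v1]; norm_num

noncomputable def D0 : A →+ A := d fun m => h m * t m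

theorem D0_mul (a b : A) : D0 (a * b) = a * D0 b + D0 a * b := d_isD _ a b
theorem D0_isD : IsD D0 := d_isD _
theorem D0_t (m : ℕ) : D0 (t m) = h m * t m := d_t _ m

theorem D0_sum {m : ℕ} {y : A} (hy : y ∈ B m) :
    D0 y = ∑ j ∈ Finset.range m, h j * t j * p j y := dsum _ y m hy

theorem D0_K {y : A} (hy : y ∈ B 0) : D0 y = 0 := by rw [D0_sum hy]; simp

theorem D0_mem {m : ℕ} {y : A} (hy : y ∈ B m) : D0 y ∈ B m := by
  rw [D0_sum hy]
  refine sum_mem fun j hj => ?_
  have := Finset.mem_range.1 hj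
  exact mul_mem (mul_mem (B_mono (by omega) (h_mem j)) (t_mem this)) (p_mem hy j)

theorem D0_v {m : ℕ} {y : A} (hy : y ∈ B m) : v m (D0 y) ≤ v m y := by
  rw [D0_sum hy]
  refine (v m).map_sum_le fun j hj => ?_
  have := Finset.mem_range.1 hj
  rw [map_mul, map_mul, h, map_mul, map_mul, v_ne (by omega), one_mul, one_mul, mul_one]
  calc v m (g j) * v m (p j y) ≤ 1 * v m y := mul_le_mul' (g_v this.le) (vp m j y)
    _ = _ := one_mul _

theorem kerD {y : A} (h0 : D0 y = 0) : y ∈ B 0 := by
  obtain ⟨m, hm⟩ := exB y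
  induction m with
  | zero => exact hm
  | succ m ih =>
    apply ih
    have h1 := p_mem' hm
    have h2 := c_mem hm
    have e1 : D0 y = D0 (y + p m y * t m) + (D0 (p m y) + h m * p m y) * t m := by
      conv_lhs => rw [c_eq m y]
      rw [map_add D0 _ (p m y * t m), D0_mul, D0_t]; ring
    have e2 := p_comp (D0_mem h2) (add_mem (D0_mem h1) (mul_mem (h_mem m) h1))
    rw [← e1, h0, map_zero] at e2
    have e3 : D0 (p m y) = h m * p m y := by
      linear_combination -e2 - (h m * p m y) * two'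
    have e4 := D0_v h1
    rw [e3, map_mul, h_v] at e4
    have e5 : p m y = 0 := by
      rw [← (v m).zero_iff]
      have : (4 : ℝ) * (v m (p m y) : ℝ) ≤ v m (p m y) := by exact_mod_cast e4
      have h6 : (0 : ℝ) ≤ v m (p m y) := NNReal.coe_nonneg _
      have : (v m (p m y) : ℝ) = 0 := by linarith
      exact_mod_cast this
    rw [e5, zero_mul, add_zero] at h2
    exact h2

abbrev K : Type := B 0

theorem smul_def (c : K) (y : A) : c • y = (c : A) * y := rfl

def BM (m : ℕ) : Submodule K A where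
  carrier := {y | y ∈ B m}
  zero_mem' := (B m).zero_mem
  add_mem' := fun ha hb => (B m).add_mem ha hb
  smul_mem' := fun c _ hy => (B m).mul_mem (B_mono (Nat.zero_le m) c.2) hy

theorem memBM {m : ℕ} {y : A} : y ∈ BM m ↔ y ∈ B m := Iff.rfl

theorem BM_fg (m : ℕ) : (BM m).FG := by
  induction m with
  | zero =>
    refine ⟨{1}, le_antisymm ?_ fun y hy => ?_⟩
    · rw [Submodule.span_le, Finset.coe_singleton, Set.singleton_subset_iff]
      exact (B 0).one_mem
    · rw [Finset.coe_singleton, Submodule.mem_span_singleton]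
      exact ⟨⟨y, hy⟩, mul_one y⟩
  | succ m ih =>
    have : BM (m + 1) = BM m ⊔ (BM m).map (LinearMap.mulRight K (t m)) := by
      refine le_antisymm (fun y hy => ?_) (sup_le (fun y hy => B_mono (Nat.le_succ m) hy) ?_)
      · rw [c_eq m y]
        exact Submodule.add_mem_sup (c_mem hy) ⟨_, p_mem' hy, rfl⟩
      · rintro _ ⟨y, hy, rfl⟩
        exact (B (m + 1)).mul_mem (B_mono (Nat.le_succ m) hy) (t_mem (by omega))
    rw [this]
    exact ih.sup (ih.map _)

instance (m : ℕ) : FiniteDimensional K (BM m) := Module.Finite.iff_fg.2 (BM_fg m)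

noncomputable def Df (f : A) : Module.End K A where
  toFun y := f * D0 y
  map_add' a b := by rw [map_add, mul_add]
  map_smul' c y := by
    simp only [smul_def, RingHom.id_apply]
    rw [D0_mul, D0_K c.2]; ring

theorem Df_apply (f y : A) : Df f y = f * D0 y := rfl

open Polynomial in
theorem annih (m : ℕ) (f : A) (hf : f ∈ B m) (hv : v m f ≤ 1) :
    ∃ q : K[X], q.Monic ∧ (∀ i, v m (q.coeff i : A) ≤ 1) ∧ ∀ x ∈ B m, aeval (Df f) q x = 0 := by
  let R : Subring K :=
    { carrier := {c | v m (c : A) ≤ 1}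
      zero_mem' := by simp
      one_mem' := by simp
      add_mem' := fun ha hb => (v m).map_add_le ha hb
      mul_mem' := fun {a b} ha hb => by
        show v m ((a : A) * b) ≤ 1
        rw [map_mul]; exact mul_le_one' ha hb
      neg_mem' := fun {a} ha => by
        show v m (-(a : A)) ≤ 1
        rw [Valuation.map_neg]; exact ha }
  let M : ℕ → Submodule R A := fun j =>
    { carrier := {y | y ∈ B j ∧ v m y ≤ 1}
      zero_mem' := ⟨zero_mem _, by simp⟩
      add_mem' := fun ha hb => ⟨add_mem ha.1 hb.1, (v m).map_add_le ha.2 hb.2⟩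
      smul_mem' := fun c y hy => ⟨mul_mem (B_mono (Nat.zero_le j) c.1.2) hy.1, by
        show v m (((c : K) : A) * y) ≤ 1
        rw [map_mul]; exact mul_le_one' c.2 hy.2⟩ }
  have hfg : ∀ j, j ≤ m → (M j).FG := by
    intro j
    induction j with
    | zero =>
      intro _
      refine ⟨{1}, le_antisymm ?_ fun y hy => ?_⟩
      · rw [Submodule.span_le, Finset.coe_singleton, Set.singleton_subset_iff]
        exact ⟨one_mem _, by simp⟩
      · rw [Finset.coe_singleton, Submodule.mem_span_singleton]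
        exact ⟨⟨⟨y, hy.1⟩, hy.2⟩, mul_one y⟩
    | succ j ih =>
      intro hj
      have ht : v m (t j) = 1 := v_ne (by omega)
      have : M (j + 1) = M j ⊔ (M j).map ((LinearMap.mulRight K (t j)).restrictScalars R) := by
        refine le_antisymm (fun y hy => ?_)
          (sup_le (fun y hy => ⟨B_mono (by omega) hy.1, hy.2⟩) ?_)
        · rw [c_eq j y]
          have h1 : v m (p j y) ≤ 1 := (vp m j y).trans hy.2
          refine Submodule.add_mem_sup ⟨c_mem hy.1, (v m).map_add_le hy.2 ?_⟩
            ⟨_, ⟨p_mem' hy.1, h1⟩, rfl⟩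
          rw [map_mul, ht, mul_one]; exact h1
        · rintro _ ⟨y, hy, rfl⟩
          refine ⟨mul_mem (B_mono (by omega) hy.1) (t_mem (by omega)), ?_⟩
          show v m (y * t j) ≤ 1
          rw [map_mul, ht, mul_one]; exact hy.2
      rw [this]
      exact (ih (by omega)).sup ((ih (by omega)).map _)
  have : Module.Finite R (M m) := Module.Finite.iff_fg.2 (hfg m le_rfl)
  have hst : ∀ y ∈ M m, (Df f).restrictScalars R y ∈ M m := fun y hy =>
    ⟨mul_mem hf (D0_mem hy.1), by
      show v m (f * D0 y) ≤ 1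
      rw [map_mul]; exact mul_le_one' hv ((D0_v hy.1).trans hy.2)⟩
  let F : Module.End R (M m) := ((Df f).restrictScalars R).restrict hst
  obtain ⟨q, hq, h0⟩ := LinearMap.exists_monic_and_aeval_eq_zero R F
  have hpow : ∀ n (x : M m), ((F ^ n) x : A) = (Df f ^ n) (x : A) := by
    intro n
    induction n with
    | zero => intro x; rfl
    | succ n ih => intro x; rw [pow_succ, pow_succ, Module.End.mul_apply, Module.End.mul_apply, ih]; rfl
  have hae : ∀ (r : R[X]) (x : M m), (aeval F r x : A) = aeval (Df f) (r.map R.subtype) (x : A) := by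
    intro r x
    induction r using Polynomial.induction_on' with
    | add a b ha hb =>
      rw [Polynomial.map_add, map_add, map_add, LinearMap.add_apply, LinearMap.add_apply,
        Submodule.coe_add, ha, hb]
    | monomial n c =>
      rw [Polynomial.map_monomial, aeval_monomial, aeval_monomial, Module.End.mul_apply,
        Module.End.mul_apply, Module.algebraMap_end_apply, Module.algebraMap_end_apply,
        Submodule.coe_smul, hpow]
      rfl
  refine ⟨q.map R.subtype, hq.map _, fun i => ?_, fun x hx => ?_⟩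
  · rw [coeff_map]; exact (q.coeff i).2
  · obtain ⟨N, hN⟩ := pow_unbounded_of_one_lt (v m x) (by norm_num : (1 : ℝ≥0) < 4)
    let c : K := ⟨(t m * t m)⁻¹ ^ N, pow_mem (inv_mem (sq_mem _ _)) N⟩
    have hc0 : c ≠ 0 := fun h => by
      have : (t m * t m)⁻¹ ^ N = 0 := congrArg Subtype.val h
      exact pow_ne_zero N (inv_ne_zero (mul_ne_zero (t_ne m) (t_ne m))) this
    have hcx : c • x ∈ M m := ⟨(BM m).smul_mem c hx, by
      show v m ((t m * t m)⁻¹ ^ N * x) ≤ 1
      rw [map_mul, map_pow, map_inv₀, map_mul, v_self, inv_pow, inv_mul_le_iff₀ (by positivity),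
        mul_one, show (2 : ℝ≥0) * 2 = 4 by norm_num]
      exact hN.le⟩
    have := hae q ⟨_, hcx⟩
    rw [h0, LinearMap.zero_apply, Submodule.coe_zero, map_smul] at this
    exact (smul_eq_zero.1 this.symm).resolve_left hc0

open Polynomial in
theorem inj_big (m : ℕ) (T : Module.End K A) (hT : ∀ y ∈ B m, T y ∈ B m ∧ v m (T y) = 4 * v m y)
    (q : K[X]) (hq : q.Monic) (hc : ∀ i, v m (q.coeff i : A) ≤ 1) (y : A) (hy : y ∈ B m)
    (h0 : aeval T q y = 0) : y = 0 := by
  have hp : ∀ n, (T ^ n) y ∈ B m ∧ v m ((T ^ n) y) = 4 ^ n * v m y := by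
    intro n
    induction n with
    | zero => exact ⟨hy, by simp⟩
    | succ n ih =>
      rw [pow_succ', Module.End.mul_apply]
      refine ⟨(hT _ ih.1).1, ?_⟩
      rw [(hT _ ih.1).2, ih.2]; ring
  by_contra hne
  have hv : 0 < v m y := (v m).pos_iff.2 hne
  rw [aeval_eq_sum_range, Finset.sum_range_succ, LinearMap.add_apply, hq.coeff_natDegree,
    one_smul, LinearMap.sum_apply] at h0
  have hlt : v m (∑ i ∈ Finset.range q.natDegree, (q.coeff i • T ^ i) y)
      < v m ((T ^ q.natDegree) y) := by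
    rw [(hp _).2]
    refine (v m).map_sum_lt (by positivity) fun i hi => ?_
    rw [LinearMap.smul_apply, smul_def, map_mul, (hp i).2]
    calc v m (q.coeff i : A) * (4 ^ i * v m y) ≤ 1 * (4 ^ i * v m y) := mul_le_mul_left (hc i) _
      _ = 4 ^ i * v m y := one_mul _
      _ < _ := mul_lt_mul_of_pos_right
        (pow_lt_pow_right₀ (by norm_num) (Finset.mem_range.1 hi)) hv
  have := (v m).map_add_eq_of_lt_right hlt
  rw [h0, map_zero, (hp _).2] at this
  exact absurd this.symm (by positivity)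

end Pool.Agent.H.MP_36a0ac_al
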